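import Pool.Agent.Helper14.T3.StL

/-!
# Project T3 (MP_1d384c_nt), module Lif3: lifting symbols modulo 3 to integral symbols
-/

set_option autoImplicit false

namespace Pool.Agent.Helper29.T3

open Pool.Agent.Helper14.CV (Homog EqC act Tl)
open Pool.Agent.Helper14.T3 Pool.Agent.Helper78.W3 Pool.Agent.Helper14.W3
open Pool.Agent.Helper14.TT (eXb)

/-- the reduction modulo three -/
private def red (G : ℤ → ℤ → ℤ) : ℤ → ℤ → ZMod 3 := fun p q => ((G p q : ℤ) : ZMod 3)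

private theorem red_Sym {r s : ℕ} {G : ℤ → ℤ → ℤ} (h : Sym3 r s G) : Sym3 r s (red G) := by
  refine ⟨?_, ?_⟩
  · intro k p q hk hpq
    change ((G (k * p) (k * q) : ℤ) : ZMod 3) = ((G p q : ℤ) : ZMod 3)
    rw [h.1 k p q hk hpq]
  · intro a b c d hdet hb hc
    obtain ⟨e, he⟩ := h.2 a b c d hdet hb hc
    refine ⟨(e : ZMod 3), ?_⟩
    intro p q hpq
    have h1 := he p q hpq
    have h2 : G (a * p + b * q) (c * p + d * q) = G p q + e := h1
    change ((G (a * p + b * q) (c * p + d * q) : ℤ) : ZMod 3) = ((G p q : ℤ) : ZMod 3) + e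
    rw [h2, Int.cast_add]

private theorem red_Tl (l : ℕ) (m : ℤ) (G : ℤ → ℤ → ℤ) : Tl l m (red G) = red (Tl l m G) := by
  funext p q
  change red G (l * p) q + ∑ j ∈ Finset.range l, red G (p + m * j * q) (l * q)
    = ((G (l * p) q + ∑ j ∈ Finset.range l, G (p + m * j * q) (l * q) : ℤ) : ZMod 3)
  rw [Int.cast_add, Int.cast_sum]
  rfl

private theorem red_Tl_iter (l : ℕ) (m : ℤ) (i : ℕ) (G : ℤ → ℤ → ℤ) :
    (Tl l m)^[i] (red G) = red ((Tl l m)^[i] G) := by
  induction i generalizing G with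
  | zero => rfl
  | succ i ih =>
    rw [Function.iterate_succ_apply, Function.iterate_succ_apply, red_Tl, ih]

private theorem red_Bo (m : ℤ) (G : ℤ → ℤ → ℤ) : Bo m (red G) = red (Bo m G) := by
  unfold Bo
  rw [red_Tl, red_Tl, red_Tl]
  funext p q
  simp only [Pi.add_apply, Pi.sub_apply, red, Int.cast_add, Int.cast_sub]

private theorem red_Bo_iter (m : ℤ) (i : ℕ) (G : ℤ → ℤ → ℤ) :
    (Bo m)^[i] (red G) = red ((Bo m)^[i] G) := by
  induction i generalizing G with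
  | zero => rfl
  | succ i ih =>
    rw [Function.iterate_succ_apply, Function.iterate_succ_apply, red_Bo, ih]

private theorem red_eXb (l : ℕ) (m : ℤ) (G : ℤ → ℤ → ℤ) :
    eXb l m (red G) = ((eXb l m G : ℤ) : ZMod 3) := by
  unfold eXb
  rw [Int.cast_sum]
  refine Finset.sum_congr rfl fun a _ => ?_
  rw [zsmul_eq_mul, zsmul_eq_mul, Int.cast_mul, Int.cast_sub]
  rfl

private theorem red_evTb (l : ℕ) (m : ℤ) (G : ℤ → ℤ → ℤ) (i j : ℕ) :
    evTb l m (red G) i j = ((evTb l m G i j : ℤ) : ZMod 3) := by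
  unfold evTb
  rw [red_Tl_iter, red_Bo_iter, red_eXb]

private theorem eXb_congr {l : ℕ} (hl : l ≠ 0) (m : ℤ) {G H : ℤ → ℤ → ZMod 3} (h : EqC G H) :
    eXb l m G = eXb l m H := by
  unfold eXb
  refine Finset.sum_congr rfl fun a _ => ?_
  rw [h.diff (Or.inr (by exact_mod_cast hl)) (Or.inl one_ne_zero)]

private theorem evTb_congr {l : ℕ} (hl : l ≠ 0) (m : ℤ) {G H : ℤ → ℤ → ZMod 3} (h : EqC G H)
    (i j : ℕ) : evTb l m G i j = evTb l m H i j := by
  unfold evTb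
  exact eXb_congr hl m ((h.Tl_iter (l := 2) (by norm_num) m i).Bo_iter m j)

private theorem red_pf {q q' : ℕ} (G : ℤ → ℤ → ℤ) (i : Fin 3) (x : ZMod q) (y : ZMod q') :
    pf (red G) i x y = ((pf G i x y : ℤ) : ZMod 3) := by
  unfold pf edge3
  rw [Int.cast_sub]
  rfl

private theorem sub_pf {q q' : ℕ} (G H : ℤ → ℤ → ZMod 3) (i : Fin 3) (x : ZMod q) (y : ZMod q') :
    pf (G + -H) i x y = pf G i x y - pf H i x y := by
  unfold pf edge3
  simp only [Pi.add_apply, Pi.neg_apply]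
  abel

/-- MODULE Lif3. -/
theorem hLif3 (hRel : S3Rel) (hLifp : S3Lifp) (hEx : S3Ex) (hUni : S3Uni) : Lif3 := by
  intro r s g hg
  have h1 := hRel (ZMod 3) _ r s g hg
  obtain ⟨F, hF, hF1⟩ := hLifp r s _ h1
  obtain ⟨G, hG, hG1⟩ := hEx ℤ _ r s F hF
  have h2 : Sym3 (r + 1) (s + 1) (red G + -g) := (red_Sym hG).add hg.neg
  have h3 : EqC (red G + -g) 0 := by
    refine hUni (ZMod 3) _ r s _ h2 fun i => ?_
    funext x y
    rw [sub_pf, red_pf, hG1, hF1, sub_self]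
    rfl
  have h4 : EqC (red G) g := by
    obtain ⟨c, hc⟩ := h3
    refine ⟨c, fun p q hpq => ?_⟩
    have h5 := hc p q hpq
    simp only [Pi.add_apply, Pi.neg_apply, Pi.zero_apply, zero_add] at h5
    rw [← h5]
    abel
  refine ⟨G, hG, h4, ?_⟩
  intro D i j hD
  rw [← red_evTb]
  exact evTb_congr hD _ h4 i j

end Pool.Agent.Helper29.T3
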