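import Pool.Agent.Helper28.T3.StA

/-! Project T3, module TOR: the roots of unity of `K` are `1` and `-1` (`D > 4`). -/

set_option autoImplicit false

open scoped NumberField

namespace Pool.Agent.Helper29.T3

open Pool.Agent.Helper28.T3

private lemma coord {K : Type} [Field K] [NumberField K] {D : ℕ} (h : QF D K) (x : 𝓞 K) :
    ∃ s t : ℤ, x = (s : 𝓞 K) + (t : 𝓞 K) * h.b 1 := by
  refine ⟨h.b.repr x 0, h.b.repr x 1, ?_⟩
  have h1 := h.b.sum_repr x
  rw [Fin.sum_univ_two, h.hb0, zsmul_eq_mul, zsmul_eq_mul, mul_one] at h1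
  exact h1.symm

private lemma coord_inj {K : Type} [Field K] [NumberField K] {D : ℕ} (h : QF D K) (s t : ℤ)
    (hst : (s : 𝓞 K) + (t : 𝓞 K) * h.b 1 = 0) : s = 0 ∧ t = 0 := by
  have h1 := Fintype.linearIndependent_iff.1 h.b.linearIndependent ![s, t] (by
    rw [Fin.sum_univ_two, h.hb0, zsmul_eq_mul, zsmul_eq_mul, mul_one]
    exact hst)
  exact ⟨h1 0, h1 1⟩

private lemma unit_pm {K : Type} [Field K] [NumberField K] {D : ℕ} (h : QF D K) (hD : 4 < D)
    (u : (𝓞 K)ˣ) : u = 1 ∨ u = -1 := by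
  obtain ⟨s, t, hu⟩ := coord h (u : 𝓞 K)
  obtain ⟨s', t', hv⟩ := coord h ((u⁻¹ : (𝓞 K)ˣ) : 𝓞 K)
  have huv : (u : 𝓞 K) * ((u⁻¹ : (𝓞 K)ˣ) : 𝓞 K) = 1 := Units.mul_inv u
  have h0 : ((s * s' - h.e * t * t' - 1 : ℤ) : 𝓞 K) +
      ((s * t' + s' * t + t * t' : ℤ) : 𝓞 K) * h.b 1 = 0 := by
    rw [hu, hv] at huv
    push_cast
    linear_combination huv - ((t : 𝓞 K) * t') * h.hb1
  obtain ⟨e1, e2⟩ := coord_inj h _ _ h0
  have hN : (s ^ 2 + s * t + h.e * t ^ 2) * (s' ^ 2 + s' * t' + h.e * t' ^ 2) = 1 := by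
    have e1' : s * s' - h.e * t * t' = 1 := by linarith
    have key : (s ^ 2 + s * t + h.e * t ^ 2) * (s' ^ 2 + s' * t' + h.e * t' ^ 2) =
        (s * s' - h.e * t * t') ^ 2 + (s * s' - h.e * t * t') * (s * t' + s' * t + t * t') +
          h.e * (s * t' + s' * t + t * t') ^ 2 := by ring
    rw [key, e1', e2]
    ring
  have h4 : 4 * (s ^ 2 + s * t + h.e * t ^ 2) = (2 * s + t) ^ 2 + (D : ℤ) * t ^ 2 := by
    linear_combination t ^ 2 * h.he
  have hD' : (4 : ℤ) < D := by exact_mod_cast hD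
  have hnn : 0 ≤ s ^ 2 + s * t + h.e * t ^ 2 := by
    have : 0 ≤ (2 * s + t) ^ 2 + (D : ℤ) * t ^ 2 := by positivity
    linarith
  have hone : s ^ 2 + s * t + h.e * t ^ 2 = 1 := by
    rcases Int.eq_one_or_neg_one_of_mul_eq_one hN with h5 | h5
    · exact h5
    · linarith
  rw [hone] at h4
  have ht : t = 0 := by
    by_contra htn
    have h6 : 1 ≤ t ^ 2 := by
      have : 0 < t ^ 2 := by positivity
      linarith
    nlinarith [sq_nonneg (2 * s + t)]
  rw [ht] at h4 hu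
  have hs : (s - 1) * (s + 1) = 0 := by linarith [h4]
  rcases mul_eq_zero.1 hs with h7 | h7
  · left
    apply Units.ext
    rw [hu, show s = 1 by linarith]
    simp
  · right
    apply Units.ext
    rw [hu, show s = -1 by linarith]
    simp

/-- TOR. -/
theorem hTOR : StTOR := by
  intro D K _ _ h hD
  classical
  rw [NumberField.Units.torsionOrder]
  let := Fintype.ofFinite (NumberField.Units.torsion K)
  rw [Nat.card_eq_fintype_card]
  refine (Finset.card_eq_two.2 ⟨1, ⟨-1, neg_one_mem_torsion⟩,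
    by simp [← Subtype.coe_ne_coe], Finset.ext fun x ↦ ⟨fun _ ↦ ?_, fun _ ↦ Finset.mem_univ _⟩⟩)
  rw [Finset.mem_insert, Finset.mem_singleton, ← Subtype.val_inj, ← Subtype.val_inj]
  exact unit_pm h hD x

end Pool.Agent.Helper29.T3
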